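import Mathlib

/-!
# The connection on the cohomology of the fibres

`L` is a field with two derivations `Dt`, `Dw`; `w` is an element with `Dw w = 1`, `Dt w = 0`, and
`c i`, `a i`, `p` are killed by `Dw`, the `a i` also by `Dt`. We use the connection
`nw φ = Dw φ + φ ∑ a_i / (w - c_i)`, `nt φ = Dt φ + φ (p - ∑ a_i Dt c_i / (w - c_i))`, that is,
`nw` and `nt` are the derivatives of `φ F`, `F = P(t) ∏ (w - c_i) ^ a_i`, divided by `F`.
-/

noncomputable section

namespace MPb07157

namespace LM

variable {L : Type*} [Field L] {ι : Type*} [Fintype ι]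

/-- The data of a connection on the fibres. -/
structure Conn (Dt Dw : Derivation ℤ L L) (w p : L) (c a : ι → L) : Prop where
  hw : Dw w = 1
  htw : Dt w = 0
  hp : Dw p = 0
  hc : ∀ i, Dw (c i) = 0
  hct : ∀ i, Dw (Dt (c i)) = 0
  ha : ∀ i, Dw (a i) = 0
  hat : ∀ i, Dt (a i) = 0
  hne : ∀ i, w - c i ≠ 0
  hinj : Function.Injective c
  comm : ∀ x, Dt (Dw x) = Dw (Dt x)

/-- The connection in the direction of the fibre. -/
def nw (Dw : Derivation ℤ L L) (w : L) (c a : ι → L) (φ : L) : L :=
  Dw φ + φ * ∑ i, a i / (w - c i)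

/-- The connection in the direction of the base. -/
def nt (Dt : Derivation ℤ L L) (w p : L) (c a : ι → L) (φ : L) : L :=
  Dt φ + φ * (p - ∑ i, a i * Dt (c i) / (w - c i))

variable {Dt Dw : Derivation ℤ L L} {w p : L} {c a : ι → L}

theorem nw_add (x y : L) : nw Dw w c a (x + y) = nw Dw w c a x + nw Dw w c a y := by
  unfold nw
  rw [map_add]
  ring

theorem nt_add (x y : L) : nt Dt w p c a (x + y) = nt Dt w p c a x + nt Dt w p c a y := by
  unfold nt
  rw [map_add]
  ring

theorem nw_sum {κ : Type*} (s : Finset κ) (x : κ → L) :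
    nw Dw w c a (∑ k ∈ s, x k) = ∑ k ∈ s, nw Dw w c a (x k) := by
  unfold nw
  rw [map_sum, Finset.sum_mul, Finset.sum_add_distrib]

theorem nt_sum {κ : Type*} (s : Finset κ) (x : κ → L) :
    nt Dt w p c a (∑ k ∈ s, x k) = ∑ k ∈ s, nt Dt w p c a (x k) := by
  unfold nt
  rw [map_sum, Finset.sum_mul, Finset.sum_add_distrib]

theorem nw_mul_of_const {x : L} (hx : Dw x = 0) (y : L) :
    nw Dw w c a (x * y) = x * nw Dw w c a y := by
  unfold nw
  rw [Derivation.leibniz, hx, smul_zero, add_zero, smul_eq_mul]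
  ring

theorem nt_mul (x y : L) :
    nt Dt w p c a (x * y) = Dt x * y + x * nt Dt w p c a y := by
  unfold nt
  rw [Derivation.leibniz, smul_eq_mul, smul_eq_mul]
  ring

theorem deriv_inv_w {D : Derivation ℤ L L} {x : L} :
    D (1 / x) = - D x / x ^ 2 := by
  rw [one_div, Derivation.leibniz_inv, smul_eq_mul, neg_mul, inv_pow, neg_div, div_eq_inv_mul]

/-- The two connections commute. -/
theorem Conn.nt_nw (h : Conn Dt Dw w p c a) (x : L) :
    nt Dt w p c a (nw Dw w c a x) = nw Dw w c a (nt Dt w p c a x) := by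
  have h1 : Dt (∑ i, a i / (w - c i)) = ∑ i, a i * Dt (c i) / (w - c i) ^ 2 := by
    rw [map_sum]
    refine Finset.sum_congr rfl fun i _ => ?_
    rw [← mul_one_div, Derivation.leibniz, h.hat i, smul_zero, add_zero, smul_eq_mul,
      deriv_inv_w, map_sub, h.htw]
    ring
  have h2 : Dw (p - ∑ i, a i * Dt (c i) / (w - c i)) =
      ∑ i, a i * Dt (c i) / (w - c i) ^ 2 := by
    rw [map_sub, h.hp, map_sum, zero_sub, ← Finset.sum_neg_distrib]
    refine Finset.sum_congr rfl fun i _ => ?_
    rw [← mul_one_div, Derivation.leibniz, Derivation.leibniz, h.ha i, h.hct i, smul_zero,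
      smul_zero, add_zero, smul_zero, add_zero, smul_eq_mul, deriv_inv_w, map_sub, h.hw, h.hc i]
    ring
  unfold nt nw
  rw [map_add, map_add, Derivation.leibniz, Derivation.leibniz, h1, h2, h.comm]
  simp only [smul_eq_mul]
  ring

/-- The reduction of `1`. -/
theorem Conn.nw_w (h : Conn Dt Dw w p c a) :
    nw Dw w c a w = 1 + ∑ i, a i + ∑ i, a i * c i / (w - c i) := by
  unfold nw
  rw [h.hw, add_assoc, ← Finset.sum_add_distrib, Finset.mul_sum]
  congr 1
  refine Finset.sum_congr rfl fun i _ => ?_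
  have h1 := h.hne i
  field_simp
  ring

/-- **The connection on the reduced classes.** -/
theorem Conn.nt_class (h : Conn Dt Dw w p c a) {α : ι → L} (hα : ∀ i, Dw (α i) = 0) :
    nt Dt w p c a (∑ i, a i * α i / (w - c i)) +
      nw Dw w c a (∑ i, a i * α i * Dt (c i) / (w - c i)) =
    ∑ i, a i / (w - c i) * (Dt (α i) + p * α i +
      ∑ j, a j * ((α i - α j) / (c i - c j) * (Dt (c i) - Dt (c j)))) := by
  classical
  have h1 : Dt (∑ i, a i * α i / (w - c i)) =
      ∑ i, (a i * Dt (α i) / (w - c i) + a i * α i * Dt (c i) / (w - c i) ^ 2) := by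
    rw [map_sum]
    refine Finset.sum_congr rfl fun i _ => ?_
    rw [← mul_one_div, Derivation.leibniz, Derivation.leibniz, h.hat i, smul_zero, add_zero,
      smul_eq_mul, smul_eq_mul, smul_eq_mul, deriv_inv_w, map_sub, h.htw]
    ring
  have h2 : Dw (∑ i, a i * α i * Dt (c i) / (w - c i)) =
      - ∑ i, a i * α i * Dt (c i) / (w - c i) ^ 2 := by
    rw [map_sum, ← Finset.sum_neg_distrib]
    refine Finset.sum_congr rfl fun i _ => ?_
    rw [← mul_one_div, Derivation.leibniz, Derivation.leibniz, Derivation.leibniz, h.ha i, hα i,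
      h.hct i, deriv_inv_w, map_sub, h.hw, h.hc i]
    simp only [smul_zero, add_zero, smul_eq_mul]
    ring
  -- the double sums
  have key : (∑ i, a i * α i * Dt (c i) / (w - c i)) * (∑ j, a j / (w - c j)) -
      (∑ i, a i * α i / (w - c i)) * (∑ j, a j * Dt (c j) / (w - c j)) =
      ∑ i, a i / (w - c i) *
        ∑ j, a j * ((α i - α j) / (c i - c j) * (Dt (c i) - Dt (c j))) := by
    have e1 : (∑ i, a i * α i * Dt (c i) / (w - c i)) * (∑ j, a j / (w - c j)) -
        (∑ i, a i * α i / (w - c i)) * (∑ j, a j * Dt (c j) / (w - c j)) =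
        ∑ i, ∑ j, a i * a j * α i * (Dt (c i) - Dt (c j)) / ((w - c i) * (w - c j)) := by
      rw [Finset.sum_mul_sum, Finset.sum_mul_sum, ← Finset.sum_sub_distrib]
      refine Finset.sum_congr rfl fun i _ => ?_
      rw [← Finset.sum_sub_distrib]
      refine Finset.sum_congr rfl fun j _ => ?_
      have h3 := h.hne i
      have h4 := h.hne j
      field_simp
    have e2 : ∀ i j, a i * a j * α i * (Dt (c i) - Dt (c j)) / ((w - c i) * (w - c j)) =
        a i * a j * α i * ((Dt (c i) - Dt (c j)) / (c i - c j)) / (w - c i) -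
        a i * a j * α i * ((Dt (c i) - Dt (c j)) / (c i - c j)) / (w - c j) := by
      intro i j
      by_cases hij : i = j
      · rw [hij]
        simp
      · have h3 := h.hne i
        have h4 := h.hne j
        have h5 : c i - c j ≠ 0 := sub_ne_zero.2 fun h6 => hij (h.hinj h6)
        field_simp
        ring
    rw [e1]
    have e3 : ∑ i, ∑ j, a i * a j * α i * (Dt (c i) - Dt (c j)) / ((w - c i) * (w - c j)) =
        ∑ i, ∑ j, a i * a j * α i * ((Dt (c i) - Dt (c j)) / (c i - c j)) / (w - c i) -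
        ∑ i, ∑ j, a i * a j * α i * ((Dt (c i) - Dt (c j)) / (c i - c j)) / (w - c j) := by
      rw [← Finset.sum_sub_distrib]
      refine Finset.sum_congr rfl fun i _ => ?_
      rw [← Finset.sum_sub_distrib]
      refine Finset.sum_congr rfl fun j _ => ?_
      exact e2 i j
    have e4 : ∑ i, ∑ j, a i * a j * α i * ((Dt (c i) - Dt (c j)) / (c i - c j)) / (w - c j) =
        ∑ i, ∑ j, a i * a j * α j * ((Dt (c i) - Dt (c j)) / (c i - c j)) / (w - c i) := by
      rw [Finset.sum_comm]
      refine Finset.sum_congr rfl fun i _ => ?_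
      refine Finset.sum_congr rfl fun j _ => ?_
      have e5 : (Dt (c j) - Dt (c i)) / (c j - c i) = (Dt (c i) - Dt (c j)) / (c i - c j) := by
        rw [← neg_sub (c i) (c j), ← neg_sub (Dt (c i)) (Dt (c j)), neg_div_neg_eq]
      rw [e5]
      ring
    rw [e3, e4, ← Finset.sum_sub_distrib]
    refine Finset.sum_congr rfl fun i _ => ?_
    rw [← Finset.sum_sub_distrib, Finset.mul_sum]
    refine Finset.sum_congr rfl fun j _ => ?_
    ring
  have h3 : ∑ i, a i / (w - c i) * (Dt (α i) + p * α i +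
      ∑ j, a j * ((α i - α j) / (c i - c j) * (Dt (c i) - Dt (c j)))) =
      ∑ i, a i * Dt (α i) / (w - c i) + p * ∑ i, a i * α i / (w - c i) +
      ∑ i, a i / (w - c i) *
        ∑ j, a j * ((α i - α j) / (c i - c j) * (Dt (c i) - Dt (c j))) := by
    rw [Finset.mul_sum, ← Finset.sum_add_distrib, ← Finset.sum_add_distrib]
    refine Finset.sum_congr rfl fun i _ => ?_
    ring
  unfold nt nw
  rw [h1, h2, h3, ← key, Finset.sum_add_distrib]
  ring

end LM

end MPb07157
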