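import Mathlib

/-!
# Two special lines: the constants are equal
-/

noncomputable section

namespace MPb07157

namespace LM

variable {K : Type*} [Field K] [Algebra ℂ K] {ι : Type*} [Fintype ι]

/-- The data of the two-line argument: `α_i - α_j = β_ij t (c_i - c_j)` with complex numbers `β_ij`,
and `t α_i' + s π t α_i + s t ∑_j m_j (c_i' - c_j') β_ij t = b t c_i + e`. -/
structure Eqs (δ : Derivation ℂ K K) (t π : K) (c α : ι → K) (m : ι → ℕ) (β : ι → ι → ℂ)
    (s b : ℂ) (e : K) : Prop where
  ht : δ t = 1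
  ht0 : t ≠ 0
  hc : Function.Injective c
  hβ : ∀ i j, i ≠ j → α i - α j = algebraMap ℂ K (β i j) * t * (c i - c j)
  eq : ∀ i, t * δ (α i) + algebraMap ℂ K s * π * t * α i + algebraMap ℂ K s * t *
    ∑ j, (m j : K) * ((δ (c i) - δ (c j)) * (algebraMap ℂ K (β i j) * t)) =
      algebraMap ℂ K b * t * c i + e

variable {δ : Derivation ℂ K K} {t π : K} {c α : ι → K} {m : ι → ℕ} {β : ι → ι → ℂ}
  {s b : ℂ} {e : K}

theorem Eqs.symm (h : Eqs δ t π c α m β s b e) {i j : ι} (hij : i ≠ j) : β i j = β j i := by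
  have h1 := h.hβ i j hij
  have h2 := h.hβ j i hij.symm
  have h3 : (algebraMap ℂ K (β i j) - algebraMap ℂ K (β j i)) * (t * (c i - c j)) = 0 := by
    linear_combination -h1 - h2
  have h4 : t * (c i - c j) ≠ 0 := mul_ne_zero h.ht0 (sub_ne_zero.2 fun h5 => hij (h.hc h5))
  have h5 := (mul_eq_zero.1 h3).resolve_right h4
  exact (algebraMap ℂ K).injective (sub_eq_zero.1 h5)

/-- The cocycle relation of a triple. -/
theorem Eqs.cocycle (h : Eqs δ t π c α m β s b e) {i j k : ι} (hij : i ≠ j) (hik : i ≠ k)
    (hjk : j ≠ k) : algebraMap ℂ K (β j k - β i j) * (c j - c i) =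
      algebraMap ℂ K (β j k - β i k) * (c k - c i) := by
  have h1 := h.hβ i j hij
  have h2 := h.hβ j k hjk
  have h3 := h.hβ i k hik
  apply mul_left_cancel₀ h.ht0
  rw [map_sub, map_sub]
  linear_combination -h1 - h2 + h3

/-- If a triple is not constant, the triangle has a constant shape. -/
theorem Eqs.shape (h : Eqs δ t π c α m β s b e) {i j k : ι} (hij : i ≠ j) (hik : i ≠ k)
    (hjk : j ≠ k) : (∃ μ : ℂ, c k - c i = algebraMap ℂ K μ * (c j - c i)) ∨ β i j = β i k := by
  by_cases h1 : β j k = β i k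
  · right
    have h2 := h.cocycle hij hik hjk
    rw [h1, sub_self, map_zero, zero_mul, mul_eq_zero] at h2
    rcases h2 with h2 | h2
    · rw [map_eq_zero_iff _ (algebraMap ℂ K).injective, sub_eq_zero] at h2
      exact h2.symm
    · exact absurd (h.hc (sub_eq_zero.1 h2)) hij.symm
  · left
    refine ⟨(β j k - β i j) / (β j k - β i k), ?_⟩
    have h2 := h.cocycle hij hik hjk
    have h3 : algebraMap ℂ K (β j k - β i k) ≠ 0 := by
      rw [Ne, map_eq_zero_iff _ (algebraMap ℂ K).injective]
      exact sub_ne_zero.2 h1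
    rw [map_div₀, div_mul_eq_mul_div, h2, mul_div_assoc, mul_div_cancel₀ _ h3]

/-- The difference of two equations. -/
theorem Eqs.diff (h : Eqs δ t π c α m β s b e) (i k : ι) :
    (δ (α i) - δ (α k)) + algebraMap ℂ K s * π * (α i - α k) + algebraMap ℂ K s *
      ∑ j, (m j : K) * ((δ (c i) - δ (c j)) * (algebraMap ℂ K (β i j) * t) -
        (δ (c k) - δ (c j)) * (algebraMap ℂ K (β k j) * t)) =
      algebraMap ℂ K b * (c i - c k) := by
  have h1 := h.eq i
  have h2 := h.eq k
  apply mul_left_cancel₀ h.ht0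
  have h3 : ∑ j, (m j : K) * ((δ (c i) - δ (c j)) * (algebraMap ℂ K (β i j) * t) -
        (δ (c k) - δ (c j)) * (algebraMap ℂ K (β k j) * t)) =
      ∑ j, (m j : K) * ((δ (c i) - δ (c j)) * (algebraMap ℂ K (β i j) * t)) -
      ∑ j, (m j : K) * ((δ (c k) - δ (c j)) * (algebraMap ℂ K (β k j) * t)) := by
    rw [← Finset.sum_sub_distrib]
    refine Finset.sum_congr rfl fun j _ => ?_
    ring
  rw [h3]
  linear_combination h1 - h2

/-- **All constants are equal.** -/
theorem Eqs.const (h : Eqs δ t π c α m β s b e) (hb : b ≠ 0) {i j k l : ι} (hij : i ≠ j)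
    (hkl : k ≠ l) : β i j = β k l := by
  classical
  -- two pairs with a common index
  have key : ∀ i j k : ι, i ≠ j → i ≠ k → β i j = β i k := by
    intro i j k hij hik
    by_contra hne
    have hjk : j ≠ k := fun h1 => hne (by rw [h1])
    -- all differences are constant multiples of `z`
    obtain ⟨z, hz⟩ : ∃ z, z = c j - c i := ⟨_, rfl⟩
    have hz0 : z ≠ 0 := by
      rw [hz]
      exact sub_ne_zero.2 fun h1 => hij (h.hc h1).symm
    have hk : ∃ μ : ℂ, c k - c i = algebraMap ℂ K μ * z := by
      rw [hz]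
      exact (h.shape hij hik hjk).resolve_right hne
    obtain ⟨μk, hμk⟩ := hk
    have hall : ∀ l, ∃ μ : ℂ, c l - c i = algebraMap ℂ K μ * z := by
      intro l
      by_cases hli : l = i
      · exact ⟨0, by rw [hli, sub_self, map_zero, zero_mul]⟩
      by_cases hlj : l = j
      · exact ⟨1, by rw [hlj, map_one, one_mul, hz]⟩
      by_cases hlk : l = k
      · exact ⟨μk, by rw [hlk]; exact hμk⟩
      rcases h.shape hij (Ne.symm hli) (Ne.symm hlj) with h1 | h1
      · rw [hz]
        exact h1
      · rcases h.shape hik (Ne.symm hli) (Ne.symm hlk) with ⟨ν, h2⟩ | h2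
        · exact ⟨ν * μk, by rw [h2, hμk, map_mul]; ring⟩
        · exact absurd (h1.trans h2.symm) hne
    choose μ hμ using hall
    have hcc : ∀ l l', c l - c l' = algebraMap ℂ K (μ l - μ l') * z := by
      intro l l'
      rw [map_sub]
      linear_combination hμ l - hμ l'
    have hdc : ∀ l l', δ (c l) - δ (c l') = algebraMap ℂ K (μ l - μ l') * δ z := by
      intro l l'
      rw [← map_sub, hcc, Derivation.leibniz, Derivation.map_algebraMap, smul_zero, add_zero,
        smul_eq_mul]
    -- the numbers `a`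
    set a : ι → ℂ := fun l => if l = i then 0 else β l i * μ l with ha
    have hμi : μ i = 0 := by
      have h1 := hμ i
      rw [sub_self] at h1
      have h2 := (mul_eq_zero.1 h1.symm).resolve_right hz0
      exact (map_eq_zero_iff _ (algebraMap ℂ K).injective).1 h2
    have hαi : ∀ l, α l - α i = algebraMap ℂ K (a l) * t * z := by
      intro l
      by_cases hli : l = i
      · simp only [ha, hli, if_true, map_zero, zero_mul, sub_self]
      · simp only [ha, if_neg hli]
        rw [h.hβ l i hli, hμ l, map_mul]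
        ring
    have hαα : ∀ l l', α l - α l' = algebraMap ℂ K (a l - a l') * t * z := by
      intro l l'
      rw [map_sub]
      linear_combination hαi l - hαi l'
    have hβμ : ∀ l l', β l l' * (μ l - μ l') = a l - a l' := by
      intro l l'
      by_cases hll : l = l'
      · rw [hll, sub_self, sub_self, mul_zero]
      · have h1 := h.hβ l l' hll
        rw [hαα, hcc] at h1
        have h2 : (algebraMap ℂ K (β l l' * (μ l - μ l')) - algebraMap ℂ K (a l - a l')) *
            (t * z) = 0 := by
          rw [map_mul]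
          linear_combination -h1
        have h3 := (mul_eq_zero.1 h2).resolve_right (mul_ne_zero h.ht0 hz0)
        exact (algebraMap ℂ K).injective (sub_eq_zero.1 h3)
    -- the equation
    set X : K := z + t * δ z + algebraMap ℂ K s * π * t * z +
      algebraMap ℂ K s * (∑ j, (m j : K)) * t * δ z with hX
    have hE : ∀ l, algebraMap ℂ K (a l) * X = algebraMap ℂ K b * (algebraMap ℂ K (μ l) * z) := by
      intro l
      have h1 := h.diff l i
      have h2 : ∑ j, (m j : K) * ((δ (c l) - δ (c j)) * (algebraMap ℂ K (β l j) * t) -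
          (δ (c i) - δ (c j)) * (algebraMap ℂ K (β i j) * t)) =
          (∑ j, (m j : K)) * (algebraMap ℂ K (a l) * t * δ z) := by
        rw [Finset.sum_mul]
        refine Finset.sum_congr rfl fun j' _ => ?_
        rw [hdc, hdc]
        have h3 := congrArg (algebraMap ℂ K) (hβμ l j')
        have h4 := congrArg (algebraMap ℂ K) (hβμ i j')
        rw [map_mul, map_sub, map_sub] at h3 h4
        have h5 : a i = 0 := by simp [ha]
        rw [h5, map_zero] at h4
        rw [map_sub, map_sub]
        linear_combination (m j' : K) * δ z * t * (h3 - h4)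
      have h6 : δ (α l) - δ (α i) = algebraMap ℂ K (a l) * (z + t * δ z) := by
        rw [← map_sub, hαi, mul_assoc, Derivation.leibniz, Derivation.map_algebraMap, smul_zero,
          add_zero, smul_eq_mul, Derivation.leibniz, h.ht, smul_eq_mul, smul_eq_mul]
        ring
      rw [h2, h6, hαi, hμ] at h1
      rw [hX]
      linear_combination h1
    have e1 := hE j
    have e2 := hE k
    have hμj : μ j = 1 := by
      have h1 := hμ j
      rw [← hz] at h1
      have h2 : (algebraMap ℂ K (μ j) - algebraMap ℂ K 1) * z = 0 := by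
        rw [map_one]
        linear_combination -h1
      have h3 := (mul_eq_zero.1 h2).resolve_right hz0
      exact (algebraMap ℂ K).injective (sub_eq_zero.1 h3)
    have haj : a j = β i j := by
      simp only [ha, if_neg hij.symm, hμj, mul_one]
      exact h.symm hij.symm
    have hak : a k = β i k * μ k := by
      simp only [ha, if_neg hik.symm]
      rw [h.symm hik.symm]
    have hμk0 : μ k ≠ 0 := by
      intro h1
      have h2 := hμ k
      rw [h1, map_zero, zero_mul] at h2
      exact hik (h.hc (sub_eq_zero.1 h2)).symm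
    have hbz : algebraMap ℂ K b * z ≠ 0 :=
      mul_ne_zero (by rwa [Ne, map_eq_zero_iff _ (algebraMap ℂ K).injective]) hz0
    rw [haj, hμj, map_one, one_mul] at e1
    rw [hak, map_mul] at e2
    have e3 : algebraMap ℂ K (β i k) * X = algebraMap ℂ K b * z := by
      have h1 : algebraMap ℂ K (μ k) ≠ 0 := by
        rwa [Ne, map_eq_zero_iff _ (algebraMap ℂ K).injective]
      apply mul_left_cancel₀ h1
      linear_combination e2
    have e4 : (algebraMap ℂ K (β i j) - algebraMap ℂ K (β i k)) * X = 0 := by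
      linear_combination e1 - e3
    rcases mul_eq_zero.1 e4 with h1 | h1
    · exact hne ((algebraMap ℂ K).injective (sub_eq_zero.1 h1))
    · rw [h1, mul_zero] at e1
      exact hbz e1.symm
  by_cases hik : i = k
  · subst hik
    exact key i j l hij hkl
  · rw [key i j k hij hik, h.symm hik, key k i l (Ne.symm hik) hkl]

/-- The equation for the differences, and the common value of the constants. -/
theorem Eqs.ode (h : Eqs δ t π c α m β s b e) (hb : b ≠ 0) (h2 : 1 < Fintype.card ι) :
    ∃ B : ℂ, B ≠ 0 ∧ (∀ i j, i ≠ j → β i j = B) ∧ ∀ i k, algebraMap ℂ K B *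
      ((1 + algebraMap ℂ K s * (π * t)) * (c i - c k) +
      (1 + algebraMap ℂ K s * ∑ j, (m j : K)) * (t * (δ (c i) - δ (c k)))) =
      algebraMap ℂ K b * (c i - c k) := by
  obtain ⟨i₀, j₀, hij₀⟩ := Fintype.one_lt_card_iff.1 h2
  set B : ℂ := β i₀ j₀ with hB
  have hall : ∀ i j, i ≠ j → β i j = B := fun i j hij => h.const hb hij hij₀
  have hE : ∀ i k, algebraMap ℂ K B * ((1 + algebraMap ℂ K s * (π * t)) * (c i - c k) +
      (1 + algebraMap ℂ K s * ∑ j, (m j : K)) * (t * (δ (c i) - δ (c k)))) =
      algebraMap ℂ K b * (c i - c k) := by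
    intro i k
    by_cases hik : i = k
    · rw [hik]
      ring
    have h1 := h.diff i k
    have h3 : ∀ i', ∀ j', (δ (c i') - δ (c j')) * (algebraMap ℂ K (β i' j') * t) =
        (δ (c i') - δ (c j')) * (algebraMap ℂ K B * t) := by
      intro i' j'
      by_cases hij : i' = j'
      · rw [hij, sub_self, zero_mul, zero_mul]
      · rw [hall i' j' hij]
    have h4 : ∑ j, (m j : K) * ((δ (c i) - δ (c j)) * (algebraMap ℂ K (β i j) * t) -
        (δ (c k) - δ (c j)) * (algebraMap ℂ K (β k j) * t)) =
        (∑ j, (m j : K)) * (algebraMap ℂ K B * t * (δ (c i) - δ (c k))) := by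
      rw [Finset.sum_mul]
      refine Finset.sum_congr rfl fun j _ => ?_
      rw [h3, h3]
      ring
    have h5 : δ (α i) - δ (α k) = algebraMap ℂ K B * ((c i - c k) +
        t * (δ (c i) - δ (c k))) := by
      rw [← map_sub, h.hβ i k hik, hall i k hik, mul_assoc, Derivation.leibniz,
        Derivation.map_algebraMap, smul_zero, add_zero, smul_eq_mul, Derivation.leibniz, h.ht,
        smul_eq_mul, smul_eq_mul, map_sub]
      ring
    rw [h4, h5, h.hβ i k hik, hall i k hik] at h1
    linear_combination h1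
  refine ⟨B, ?_, hall, hE⟩
  intro h0
  have h1 := hE i₀ j₀
  rw [h0, map_zero, zero_mul] at h1
  refine mul_ne_zero ?_ (sub_ne_zero.2 fun h3 => hij₀ (h.hc h3)) h1.symm
  rwa [Ne, map_eq_zero_iff _ (algebraMap ℂ K).injective]

/-- Each constant is different from zero. -/
theorem Eqs.ne_zero (h : Eqs δ t π c α m β s b e) (hb : b ≠ 0) {i j : ι} (hij : i ≠ j) :
    β i j ≠ 0 := by
  obtain ⟨B, hB, h1, -⟩ := h.ode hb (Fintype.one_lt_card_iff.2 ⟨i, j, hij⟩)
  rw [h1 i j hij]
  exact hB

/-- The derivatives of the differences. -/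
theorem Eqs.euler (h : Eqs δ t π c α m β s b e) (hb : b ≠ 0) (h2 : 1 < Fintype.card ι)
    {p : ℂ} (hp : π * t = algebraMap ℂ K p) (hs : 1 + s * (∑ j, (m j : ℂ)) ≠ 0) :
    ∃ lam : ℂ, 1 + s * p + lam * (1 + s * ∑ j, (m j : ℂ)) ≠ 0 ∧
      ∀ i k, t * (δ (c i) - δ (c k)) = algebraMap ℂ K lam * (c i - c k) := by
  obtain ⟨B, hB0, -, hE⟩ := h.ode hb h2
  refine ⟨(b / B - 1 - s * p) / (1 + s * ∑ j, (m j : ℂ)), ?_, fun i k => ?_⟩
  · rw [div_mul_cancel₀ _ hs]
    have h1 : 1 + s * p + (b / B - 1 - s * p) = b / B := by ring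
    rw [h1]
    exact div_ne_zero hb hB0
  · have h1 := hE i k
    have h3 : algebraMap ℂ K (1 + s * ∑ j, (m j : ℂ)) ≠ 0 := by
      rwa [Ne, map_eq_zero_iff _ (algebraMap ℂ K).injective]
    have h4 : algebraMap ℂ K B ≠ 0 := by
      rwa [Ne, map_eq_zero_iff _ (algebraMap ℂ K).injective]
    have h5 : algebraMap ℂ K (1 + s * ∑ j, (m j : ℂ)) =
        1 + algebraMap ℂ K s * ∑ j, (m j : K) := by
      rw [map_add, map_one, map_mul, map_sum]
      simp only [map_natCast]
    rw [map_div₀, div_mul_eq_mul_div, eq_div_iff h3, h5, map_sub, map_sub, map_one, map_mul,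
      map_div₀]
    apply mul_left_cancel₀ h4
    have h6 : algebraMap ℂ K B * (algebraMap ℂ K b / algebraMap ℂ K B) = algebraMap ℂ K b :=
      mul_div_cancel₀ _ h4
    rw [hp] at h1
    linear_combination h1 - (c i - c k) * h6

end LM

end MPb07157
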