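import Mathlib

/-!
# Two special lines: the linear vector field
-/

noncomputable section

namespace MPb07157

namespace LM

open Polynomial

variable {K : Type*} [Field K] [Algebra ℂ K]

/-- The map `q ↦ q(w, 1, t)`. -/
def Phi (t : K) : MvPolynomial (Fin 3) ℂ →ₐ[ℂ] K[X] :=
  MvPolynomial.aeval ![(X : K[X]), 1, C t]

theorem Phi_X0 (t : K) : Phi t (MvPolynomial.X 0) = X := by
  unfold Phi
  rw [MvPolynomial.aeval_X]
  rfl

theorem Phi_X1 (t : K) : Phi t (MvPolynomial.X 1) = 1 := by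
  unfold Phi
  rw [MvPolynomial.aeval_X]
  rfl

theorem Phi_X2 (t : K) : Phi t (MvPolynomial.X 2) = C t := by
  unfold Phi
  rw [MvPolynomial.aeval_X]
  rfl

theorem Phi_C (t : K) (z : ℂ) : Phi t (MvPolynomial.C z) = C (algebraMap ℂ K z) := by
  have h1 := AlgHom.commutes (Phi t) z
  exact h1

theorem Phi_monomial (t : K) (v : Fin 3 →₀ ℕ) (z : ℂ) :
    Phi t (MvPolynomial.monomial v z) = C (algebraMap ℂ K z * t ^ v 2) * X ^ v 0 := by
  unfold Phi
  rw [MvPolynomial.aeval_monomial, Finsupp.prod_fintype _ _ (fun i => pow_zero _),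
    Fin.prod_univ_three]
  have h1 : algebraMap ℂ K[X] z = C (algebraMap ℂ K z) := rfl
  rw [h1]
  simp only [Matrix.cons_val_zero, Matrix.cons_val_one, Matrix.cons_val, one_pow, mul_one, C_mul,
    C_pow]
  ring

/-- The coefficients of `Φ(q)`. -/
theorem coeff_Phi (t : K) (q : MvPolynomial (Fin 3) ℂ) (k : ℕ) :
    (Phi t q).coeff k = ∑ v ∈ q.support,
      (if v 0 = k then algebraMap ℂ K (MvPolynomial.coeff v q) * t ^ v 2 else 0) := by
  conv_lhs => rw [q.as_sum]
  rw [map_sum, finsetSum_coeff]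
  refine Finset.sum_congr rfl fun v _ => ?_
  rw [Phi_monomial, coeff_C_mul, coeff_X_pow]
  by_cases h : v 0 = k
  · rw [if_pos h, if_pos h.symm, mul_one]
  · rw [if_neg h, if_neg (Ne.symm h), mul_zero]

/-- The coefficient of `w ^ (D - 1)` is a polynomial of degree at most one in `t`. -/
theorem exists_lin (t : K) {q : MvPolynomial (Fin 3) ℂ} {D : ℕ} (hq : q.IsHomogeneous (D + 1)) :
    ∃ u v : ℂ, (Phi t q).coeff D = algebraMap ℂ K u + algebraMap ℂ K v * t := by
  classical
  refine ⟨∑ v ∈ q.support, (if v 0 = D ∧ v 2 = 0 then MvPolynomial.coeff v q else 0),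
    ∑ v ∈ q.support, (if v 0 = D ∧ v 2 = 1 then MvPolynomial.coeff v q else 0), ?_⟩
  rw [coeff_Phi, map_sum, map_sum, Finset.sum_mul, ← Finset.sum_add_distrib]
  refine Finset.sum_congr rfl fun v hv => ?_
  have h1 : v 0 + v 1 + v 2 = D + 1 := by
    have h2 := hq (MvPolynomial.mem_support_iff.1 hv)
    rw [Finsupp.weight_apply, Finsupp.sum_fintype _ _ (fun i => by simp), Fin.sum_univ_three] at h2
    simpa using h2
  by_cases h0 : v 0 = D
  · have h2 : v 2 = 0 ∨ v 2 = 1 := by omega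
    rcases h2 with h2 | h2
    · rw [if_pos h0, if_pos ⟨h0, h2⟩, if_neg (by omega), h2, map_zero, zero_mul, add_zero,
        pow_zero, mul_one]
    · rw [if_pos h0, if_neg (by omega), if_pos ⟨h0, h2⟩, h2, map_zero, zero_add, pow_one]
  · rw [if_neg h0, if_neg (fun h => h0 h.1), if_neg (fun h => h0 h.1), map_zero, zero_mul,
      add_zero]

/-- `t` is transcendental. -/
theorem transcendental_of_deriv {δ : Derivation ℂ K K} {t : K} (ht : δ t = 1) :
    Transcendental ℂ t := by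
  intro halg
  have h2 : IsIntegral ℂ t := halg.isIntegral
  have h3 := IsAlgClosed.degree_eq_one_of_irreducible ℂ (minpoly.irreducible h2)
  obtain ⟨z, hz⟩ := minpoly.mem_range_of_degree_eq_one ℂ t h3
  rw [← hz, Derivation.map_algebraMap] at ht
  exact zero_ne_one ht

theorem eval_smul_homog {q : MvPolynomial (Fin 3) ℂ} {D : ℕ} (hq : q.IsHomogeneous D) (z : ℂ)
    (x : Fin 3 → ℂ) : MvPolynomial.eval (z • x) q = z ^ D * MvPolynomial.eval x q := by
  rw [MvPolynomial.eval_eq', MvPolynomial.eval_eq', Finset.mul_sum]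
  refine Finset.sum_congr rfl fun d hd => ?_
  have h1 : ∑ i, d i = D := by
    have h2 := hq (MvPolynomial.mem_support_iff.1 hd)
    rw [← h2, Finsupp.weight_apply, Finsupp.sum_fintype _ _ (fun i => by simp)]
    simp
  have h3 : ∏ i, (z • x) i ^ d i = z ^ D * ∏ i, x i ^ d i := by
    rw [← h1, ← Finset.prod_pow_eq_pow_sum, ← Finset.prod_mul_distrib]
    refine Finset.prod_congr rfl fun i _ => ?_
    rw [Pi.smul_apply, smul_eq_mul, mul_pow]
  rw [h3]
  ring

/-- `Φ` is injective on homogeneous polynomials. -/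
theorem eq_zero_of_Phi {t : K} (ht : Transcendental ℂ t) {q : MvPolynomial (Fin 3) ℂ} {D : ℕ}
    (hq : q.IsHomogeneous D) (h : Phi t q = 0) : q = 0 := by
  have key : ∀ ω τ : ℂ, MvPolynomial.eval ![ω, 1, τ] q = 0 := by
    intro ω τ
    have h1 : MvPolynomial.aeval (![C ω, 1, X] : Fin 3 → ℂ[X]) q = 0 := by
      have h2 : aeval t (MvPolynomial.aeval (![C ω, 1, X] : Fin 3 → ℂ[X]) q) =
          (Phi t q).eval (algebraMap ℂ K ω) := by
        have h3 : (aeval t).comp (MvPolynomial.aeval (![C ω, 1, X] : Fin 3 → ℂ[X])) =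
            ((aeval (R := K) (algebraMap ℂ K ω)).restrictScalars ℂ).comp (Phi t) := by
          apply MvPolynomial.algHom_ext
          intro i
          rw [AlgHom.comp_apply, AlgHom.comp_apply, MvPolynomial.aeval_X]
          fin_cases i
          · simp [Phi_X0]
          · simp [Phi_X1]
          · simp [Phi_X2]
        have h4 := congrArg (fun φ => φ q) h3
        simpa using h4
      rw [h, eval_zero] at h2
      exact (transcendental_iff.1 ht) _ h2
    have h2 := congrArg (aeval (R := ℂ) τ) h1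
    rw [map_zero] at h2
    have h3 : ((aeval (R := ℂ) τ).comp (MvPolynomial.aeval (![C ω, 1, X] : Fin 3 → ℂ[X]))) =
        (MvPolynomial.aeval ![ω, 1, τ] : MvPolynomial (Fin 3) ℂ →ₐ[ℂ] ℂ) := by
      apply MvPolynomial.algHom_ext
      intro i
      rw [AlgHom.comp_apply, MvPolynomial.aeval_X, MvPolynomial.aeval_X]
      fin_cases i
      · simp
      · simp
      · simp
    have h4 : MvPolynomial.aeval ![ω, 1, τ] q = 0 := by
      rw [← h3, AlgHom.comp_apply]
      exact h2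
    rw [← h4, ← MvPolynomial.coe_aeval_eq_eval]
    rfl
  have h1 : q * MvPolynomial.X 1 = 0 := by
    apply MvPolynomial.funext
    intro x
    rw [map_mul, MvPolynomial.eval_X, map_zero]
    by_cases h0 : x 1 = 0
    · rw [h0, mul_zero]
    · have h2 := key (x 0 / x 1) (x 2 / x 1)
      have h3 : x = x 1 • ![x 0 / x 1, 1, x 2 / x 1] := by
        funext i
        fin_cases i
        · simp [mul_div_cancel₀ _ h0]
        · simp
        · simp [mul_div_cancel₀ _ h0]
      rw [h3, eval_smul_homog hq, h2, mul_zero, zero_mul]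
  exact (mul_eq_zero.1 h1).resolve_right (MvPolynomial.X_ne_zero 1)

/-! ### The derivation -/

/-- The derivation of `K[w]` which is `t δ` on `K` and takes `w` to `v`. -/
def DD (δ : Derivation ℂ K K) (t : K) (v : K[X]) : Derivation ℤ K[X] K[X] :=
  letI : Differential K := ⟨(t • δ).restrictScalars ℤ⟩
  Differential.implicitDeriv v

theorem DD_X (δ : Derivation ℂ K K) (t : K) (v : K[X]) : DD δ t v X = v := by
  let _ : Differential K := ⟨(t • δ).restrictScalars ℤ⟩
  exact Differential.implicitDeriv_X v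

theorem DD_C (δ : Derivation ℂ K K) (t : K) (v : K[X]) (a : K) :
    DD δ t v (C a) = C (t * δ a) := by
  let _ : Differential K := ⟨(t • δ).restrictScalars ℤ⟩
  exact Differential.implicitDeriv_C v a

/-- `𝒟 ∘ Φ = Φ ∘ V`. -/
theorem DD_Phi {δ : Derivation ℂ K K} {t : K} (ht : δ t = 1) {v : K[X]}
    (V : Derivation ℂ (MvPolynomial (Fin 3) ℂ) (MvPolynomial (Fin 3) ℂ))
    (h0 : Phi t (V (MvPolynomial.X 0)) = v) (h1 : V (MvPolynomial.X 1) = 0)
    (h2 : V (MvPolynomial.X 2) = MvPolynomial.X 2) (q : MvPolynomial (Fin 3) ℂ) :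
    DD δ t v (Phi t q) = Phi t (V q) := by
  induction q using MvPolynomial.induction_on with
  | C a =>
    rw [Phi_C, DD_C, Derivation.map_algebraMap, mul_zero, C_0]
    have h3 : V (MvPolynomial.C a) = 0 := Derivation.map_algebraMap V a
    rw [h3, map_zero]
  | add p q hp hq => rw [map_add, map_add, hp, hq, map_add, map_add]
  | mul_X p i hp =>
    have h3 : DD δ t v (Phi t (MvPolynomial.X i)) = Phi t (V (MvPolynomial.X i)) := by
      fin_cases i
      · show DD δ t v (Phi t (MvPolynomial.X 0)) = Phi t (V (MvPolynomial.X 0))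
        rw [h0, Phi_X0, DD_X]
      · show DD δ t v (Phi t (MvPolynomial.X 1)) = Phi t (V (MvPolynomial.X 1))
        rw [h1, Phi_X1, map_zero, Derivation.map_one_eq_zero]
      · show DD δ t v (Phi t (MvPolynomial.X 2)) = Phi t (V (MvPolynomial.X 2))
        rw [h2, Phi_X2, DD_C, ht, mul_one]
    rw [map_mul, Derivation.leibniz, hp, h3, Derivation.leibniz, map_add, smul_eq_mul, smul_eq_mul,
      smul_eq_mul, smul_eq_mul, map_mul, map_mul]

/-- The derivation on the product of the linear factors. -/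
theorem DD_prod {ι : Type*} [Fintype ι] {δ : Derivation ℂ K K} {t : K} {v : K[X]} {c : ι → K}
    {m : ι → ℕ} {lam : K} (h : ∀ i, DD δ t v (X - C (c i)) = C lam * (X - C (c i))) :
    DD δ t v (∏ i, (X - C (c i)) ^ m i) =
      C (lam * ∑ i, (m i : K)) * ∏ i, (X - C (c i)) ^ m i := by
  classical
  have key : ∀ s : Finset ι, DD δ t v (∏ i ∈ s, (X - C (c i)) ^ m i) =
      C (lam * ∑ i ∈ s, (m i : K)) * ∏ i ∈ s, (X - C (c i)) ^ m i := by
    intro s
    induction s using Finset.induction_on with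
    | empty => simp
    | insert a s ha ih =>
      rw [Finset.prod_insert ha, Derivation.leibniz, ih, Finset.sum_insert ha]
      have h1 : DD δ t v ((X - C (c a)) ^ m a) =
          C (lam * (m a : K)) * (X - C (c a)) ^ m a := by
        rcases Nat.eq_zero_or_pos (m a) with h0 | h0
        · rw [h0, pow_zero, Derivation.map_one_eq_zero, Nat.cast_zero, mul_zero, C_0, zero_mul]
        · obtain ⟨k, hk⟩ : ∃ k, m a = k + 1 := ⟨m a - 1, by omega⟩
          rw [Derivation.leibniz_pow, h a, hk, Nat.add_sub_cancel, smul_eq_mul, nsmul_eq_mul,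
            pow_succ, C_mul]
          push_cast
          rw [C_add, C_1, C_eq_natCast]
          ring
      rw [h1, smul_eq_mul, smul_eq_mul, mul_add, C_add]
      ring
  exact key Finset.univ

/-! ### The vector field -/

/-- The vector field `y ∂_y + (u1 y + lam (w - u0 x - u1 y)) ∂_w`. -/
def VV (u0 u1 lam : ℂ) : Derivation ℂ (MvPolynomial (Fin 3) ℂ) (MvPolynomial (Fin 3) ℂ) :=
  (MvPolynomial.C u1 * MvPolynomial.X 2 + MvPolynomial.C lam * (MvPolynomial.X 0 -
    MvPolynomial.C u0 * MvPolynomial.X 1 - MvPolynomial.C u1 * MvPolynomial.X 2) :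
      MvPolynomial (Fin 3) ℂ) • (MvPolynomial.pderiv 0 :
      Derivation ℂ (MvPolynomial (Fin 3) ℂ) (MvPolynomial (Fin 3) ℂ)) +
    (MvPolynomial.X 2 : MvPolynomial (Fin 3) ℂ) • (MvPolynomial.pderiv 2 :
      Derivation ℂ (MvPolynomial (Fin 3) ℂ) (MvPolynomial (Fin 3) ℂ))

theorem VV_apply (u0 u1 lam : ℂ) (q : MvPolynomial (Fin 3) ℂ) :
    VV u0 u1 lam q = (MvPolynomial.C u1 * MvPolynomial.X 2 + MvPolynomial.C lam *
      (MvPolynomial.X 0 - MvPolynomial.C u0 * MvPolynomial.X 1 -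
        MvPolynomial.C u1 * MvPolynomial.X 2)) * MvPolynomial.pderiv 0 q +
      MvPolynomial.X 2 * MvPolynomial.pderiv 2 q := rfl

theorem VV_homog (u0 u1 lam : ℂ) : (MvPolynomial.C u1 * MvPolynomial.X 2 + MvPolynomial.C lam *
      (MvPolynomial.X 0 - MvPolynomial.C u0 * MvPolynomial.X 1 -
        MvPolynomial.C u1 * MvPolynomial.X 2) : MvPolynomial (Fin 3) ℂ).IsHomogeneous 1 := by
  have hX : ∀ i : Fin 3, (MvPolynomial.X i : MvPolynomial (Fin 3) ℂ).IsHomogeneous 1 :=
    fun i => MvPolynomial.isHomogeneous_X ℂ i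
  exact ((hX 2).C_mul u1).add ((((hX 0).sub ((hX 1).C_mul u0)).sub ((hX 2).C_mul u1)).C_mul lam)

/-- The vector field multiplies `h` by a constant. -/
theorem exists_VV {ι : Type*} [Fintype ι] {δ : Derivation ℂ K K} {t : K} (ht : δ t = 1)
    {h : MvPolynomial (Fin 3) ℂ} {D : ℕ} (hD : 0 < D) (hh : h.IsHomogeneous D) {c : ι → K}
    {m : ι → ℕ} (hm : ∑ i, m i = D) {b : ℂ} (hb : b ≠ 0)
    (hfac : Phi t h = C (algebraMap ℂ K b) * ∏ i, (X - C (c i)) ^ m i) {lam : ℂ}
    (hlam : ∀ i k, t * (δ (c i) - δ (c k)) = algebraMap ℂ K lam * (c i - c k)) :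
    ∃ u0 u1 : ℂ, VV u0 u1 lam h = MvPolynomial.C (lam * D) * h := by
  obtain ⟨D', rfl⟩ : ∃ D', D = D' + 1 := ⟨D - 1, by omega⟩
  obtain ⟨u, v, huv⟩ := exists_lin t hh
  have hmon : ∀ i ∈ (Finset.univ : Finset ι), ((X - C (c i)) ^ m i).Monic :=
    fun i _ => (monic_X_sub_C (c i)).pow (m i)
  have hdeg : (∏ i, (X - C (c i)) ^ m i).natDegree = D' + 1 := by
    rw [natDegree_prod_of_monic _ _ hmon, ← hm]
    refine Finset.sum_congr rfl fun i _ => ?_
    rw [(monic_X_sub_C (c i)).natDegree_pow, natDegree_X_sub_C, mul_one]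
  have hnext : (∏ i, (X - C (c i)) ^ m i).coeff D' = - ∑ i, (m i : K) * c i := by
    have h1 : (∏ i, (X - C (c i)) ^ m i).nextCoeff = - ∑ i, (m i : K) * c i := by
      rw [Monic.nextCoeff_prod _ _ hmon, ← Finset.sum_neg_distrib]
      refine Finset.sum_congr rfl fun i _ => ?_
      rw [(monic_X_sub_C (c i)).nextCoeff_pow, nextCoeff_X_sub_C, nsmul_eq_mul, mul_neg]
    rw [← h1, nextCoeff_of_natDegree_pos (by omega), hdeg, Nat.add_sub_cancel]
  rw [hfac, coeff_C_mul, hnext] at huv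
  have hbK : algebraMap ℂ K b ≠ 0 := by
    rw [Ne, map_eq_zero_iff _ (algebraMap ℂ K).injective]
    exact hb
  have hDK : ((D' + 1 : ℕ) : K) ≠ 0 := by
    have h1 : ((D' + 1 : ℕ) : K) = algebraMap ℂ K ((D' + 1 : ℕ) : ℂ) := (map_natCast _ _).symm
    rw [h1, Ne, map_eq_zero_iff _ (algebraMap ℂ K).injective]
    exact_mod_cast Nat.succ_ne_zero D'
  have hDC : ((D' + 1 : ℕ) : ℂ) ≠ 0 := by exact_mod_cast Nat.succ_ne_zero D'
  -- the mean of the roots
  refine ⟨-u / (b * ((D' + 1 : ℕ) : ℂ)), -v / (b * ((D' + 1 : ℕ) : ℂ)), ?_⟩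
  obtain ⟨u0, hu0⟩ : ∃ u0, u0 = -u / (b * ((D' + 1 : ℕ) : ℂ)) := ⟨_, rfl⟩
  obtain ⟨u1, hu1⟩ : ∃ u1, u1 = -v / (b * ((D' + 1 : ℕ) : ℂ)) := ⟨_, rfl⟩
  rw [← hu0, ← hu1]
  have hmean : ((D' + 1 : ℕ) : K) * (algebraMap ℂ K u0 + algebraMap ℂ K u1 * t) =
      ∑ i, (m i : K) * c i := by
    apply mul_left_cancel₀ hbK
    have h1 : algebraMap ℂ K b * ((D' + 1 : ℕ) : K) * algebraMap ℂ K u0 =
        - algebraMap ℂ K u := by
      rw [← map_natCast (algebraMap ℂ K), ← map_mul, ← map_mul, ← map_neg, hu0,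
        mul_div_cancel₀ _ (mul_ne_zero hb hDC)]
    have h2 : algebraMap ℂ K b * ((D' + 1 : ℕ) : K) * algebraMap ℂ K u1 =
        - algebraMap ℂ K v := by
      rw [← map_natCast (algebraMap ℂ K), ← map_mul, ← map_mul, ← map_neg, hu1,
        mul_div_cancel₀ _ (mul_ne_zero hb hDC)]
    linear_combination h1 + t * h2 + huv
  have hsum : ∑ i, (m i : K) = ((D' + 1 : ℕ) : K) := by
    rw [← hm, Nat.cast_sum]
  -- the derivative of the roots
  have hder : ∀ i, t * δ (c i) = algebraMap ℂ K u1 * t + algebraMap ℂ K lam *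
      (c i - (algebraMap ℂ K u0 + algebraMap ℂ K u1 * t)) := by
    intro i
    apply mul_left_cancel₀ hDK
    have h1 : ∑ k, (m k : K) * (t * (δ (c i) - δ (c k))) =
        ∑ k, (m k : K) * (algebraMap ℂ K lam * (c i - c k)) :=
      Finset.sum_congr rfl fun k _ => by rw [hlam i k]
    have h2 : ∑ k, (m k : K) * (t * (δ (c i) - δ (c k))) =
        ((D' + 1 : ℕ) : K) * (t * δ (c i)) - t * δ (∑ k, (m k : K) * c k) := by
      rw [map_sum, Finset.mul_sum, ← hsum, Finset.sum_mul, ← Finset.sum_sub_distrib]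
      refine Finset.sum_congr rfl fun k _ => ?_
      rw [Derivation.leibniz, Derivation.map_natCast, smul_zero, add_zero, smul_eq_mul]
      ring
    have h3 : ∑ k, (m k : K) * (algebraMap ℂ K lam * (c i - c k)) = algebraMap ℂ K lam *
        (((D' + 1 : ℕ) : K) * c i - ∑ k, (m k : K) * c k) := by
      rw [← hsum, Finset.sum_mul, ← Finset.sum_sub_distrib, Finset.mul_sum]
      refine Finset.sum_congr rfl fun k _ => ?_
      ring
    have h4 : δ (∑ k, (m k : K) * c k) = ((D' + 1 : ℕ) : K) * algebraMap ℂ K u1 := by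
      rw [← hmean, Derivation.leibniz, Derivation.map_natCast, smul_zero, add_zero, map_add,
        Derivation.map_algebraMap, zero_add, Derivation.leibniz, Derivation.map_algebraMap,
        smul_zero, add_zero, ht, smul_eq_mul, smul_eq_mul, mul_one]
    rw [h2, h3, h4, ← hmean] at h1
    linear_combination h1
  -- the derivation of `K[w]`
  obtain ⟨vK, hvK⟩ : ∃ vK : K[X], vK = C (algebraMap ℂ K u1 * t) + C (algebraMap ℂ K lam) *
      (X - C (algebraMap ℂ K u0 + algebraMap ℂ K u1 * t)) := ⟨_, rfl⟩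
  have hlin : ∀ i, DD δ t vK (X - C (c i)) = C (algebraMap ℂ K lam) * (X - C (c i)) := by
    intro i
    rw [map_sub, DD_X, DD_C, hder i, hvK]
    simp only [C_add, C_sub, C_mul]
    ring
  have hDDh : DD δ t vK (Phi t h) =
      C (algebraMap ℂ K lam * ((D' + 1 : ℕ) : K)) * Phi t h := by
    rw [hfac, Derivation.leibniz, DD_C, Derivation.map_algebraMap, mul_zero, C_0, smul_zero,
      add_zero, DD_prod hlin, hsum, smul_eq_mul]
    ring
  have hV0 : Phi t (VV u0 u1 lam (MvPolynomial.X 0)) = vK := by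
    rw [VV_apply, MvPolynomial.pderiv_X_self, MvPolynomial.pderiv_X_of_ne (by decide), mul_one,
      mul_zero, add_zero, hvK]
    simp only [map_add, map_mul, map_sub, Phi_C, Phi_X0, Phi_X1, Phi_X2]
    ring
  have hV1 : VV u0 u1 lam (MvPolynomial.X 1) = 0 := by
    rw [VV_apply, MvPolynomial.pderiv_X_of_ne (by decide), MvPolynomial.pderiv_X_of_ne (by decide),
      mul_zero, mul_zero, add_zero]
  have hV2 : VV u0 u1 lam (MvPolynomial.X 2) = MvPolynomial.X 2 := by
    rw [VV_apply, MvPolynomial.pderiv_X_of_ne (by decide), MvPolynomial.pderiv_X_self,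
      mul_zero, zero_add, mul_one]
  have hP := DD_Phi ht (VV u0 u1 lam) hV0 hV1 hV2 h
  rw [hDDh] at hP
  have hq : (VV u0 u1 lam h - MvPolynomial.C (lam * ((D' + 1 : ℕ) : ℂ)) * h).IsHomogeneous
      (D' + 1) := by
    refine MvPolynomial.IsHomogeneous.sub ?_ (hh.C_mul _)
    rw [VV_apply]
    have e1 : 1 + (D' + 1 - 1) = D' + 1 := by omega
    refine MvPolynomial.IsHomogeneous.add ?_ ?_
    · have h1 := (VV_homog u0 u1 lam).mul (hh.pderiv (i := 0))
      rw [e1] at h1
      exact h1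
    · have h1 := (MvPolynomial.isHomogeneous_X ℂ (2 : Fin 3)).mul (hh.pderiv (i := 2))
      rw [e1] at h1
      exact h1
  refine sub_eq_zero.1 (eq_zero_of_Phi (transcendental_of_deriv ht) hq ?_)
  rw [map_sub, ← hP, map_mul (Phi t), Phi_C, map_mul (algebraMap ℂ K), map_natCast, sub_self]

/-- **The two-line argument, last step.** -/
theorem exists_div {ι : Type*} [Fintype ι] {δ : Derivation ℂ K K} {t : K} (ht : δ t = 1)
    {h : MvPolynomial (Fin 3) ℂ} {D : ℕ} (hD : 0 < D) (hh : h.IsHomogeneous D) {c : ι → K}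
    {m : ι → ℕ} (hm : ∑ i, m i = D) {b : ℂ} (hb : b ≠ 0)
    (hfac : Phi t h = C (algebraMap ℂ K b) * ∏ i, (X - C (c i)) ^ m i) {lam : ℂ}
    (hlam : ∀ i k, t * (δ (c i) - δ (c k)) = algebraMap ℂ K lam * (c i - c k))
    {b0 : ℂ} {p1 p2 : ℕ} {s : ℂ} (hs : s * ((p1 + p2 + D : ℕ) : ℂ) = -3)
    (hne : 1 + s * p2 + lam * (1 + s * D) ≠ 0) :
    ∃ a : Fin 3 → MvPolynomial (Fin 3) ℂ, (∀ i, (a i).IsHomogeneous 1) ∧
      ∑ i, a i * MvPolynomial.pderiv i (MvPolynomial.C b0 * MvPolynomial.X 1 ^ p1 *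
        MvPolynomial.X 2 ^ p2 * h) = 0 ∧ ∑ i, MvPolynomial.pderiv i (a i) ≠ 0 := by
  obtain ⟨u0, u1, hV⟩ := exists_VV ht hD hh hm hb hfac hlam
  obtain ⟨k, hk⟩ : ∃ k : ℂ, k * ((p1 + p2 + D : ℕ) : ℂ) = p2 + lam * D := by
    refine ⟨(p2 + lam * D) / ((p1 + p2 + D : ℕ) : ℂ), div_mul_cancel₀ _ ?_⟩
    have h1 : p1 + p2 + D ≠ 0 := by omega
    exact_mod_cast h1
  have hX : ∀ i : Fin 3, (MvPolynomial.X i : MvPolynomial (Fin 3) ℂ).IsHomogeneous 1 :=
    fun i => MvPolynomial.isHomogeneous_X ℂ i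
  obtain ⟨f, hf⟩ : ∃ f : MvPolynomial (Fin 3) ℂ, f = MvPolynomial.C b0 * MvPolynomial.X 1 ^ p1 *
        MvPolynomial.X 2 ^ p2 * h := ⟨_, rfl⟩
  have hfh : f.IsHomogeneous (p1 + p2 + D) := by
    rw [hf]
    have h1 := ((hX 1).pow p1).C_mul b0
    rw [one_mul] at h1
    have h2 := (hX 2).pow p2
    rw [one_mul] at h2
    exact (h1.mul h2).mul hh
  have hVf : VV u0 u1 lam f = MvPolynomial.C (p2 + lam * D) * f := by
    have e1 : VV u0 u1 lam (MvPolynomial.X 1) = 0 := by
      rw [VV_apply, MvPolynomial.pderiv_X_of_ne (by decide),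
        MvPolynomial.pderiv_X_of_ne (by decide), mul_zero, mul_zero, add_zero]
    have e2 : VV u0 u1 lam (MvPolynomial.X 2) = MvPolynomial.X 2 := by
      rw [VV_apply, MvPolynomial.pderiv_X_of_ne (by decide), MvPolynomial.pderiv_X_self,
        mul_zero, zero_add, mul_one]
    have e3 : VV u0 u1 lam (MvPolynomial.X 1 ^ p1) = 0 := by
      rw [Derivation.leibniz_pow, e1, smul_zero, smul_zero]
    have e4 : VV u0 u1 lam (MvPolynomial.X 2 ^ p2) =
        MvPolynomial.C (p2 : ℂ) * MvPolynomial.X 2 ^ p2 := by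
      rcases Nat.eq_zero_or_pos p2 with h0 | h0
      · rw [h0, pow_zero, Derivation.map_one_eq_zero, Nat.cast_zero, MvPolynomial.C_0, zero_mul]
      · obtain ⟨r, hr⟩ : ∃ r, p2 = r + 1 := ⟨p2 - 1, by omega⟩
        rw [Derivation.leibniz_pow, e2, hr, Nat.add_sub_cancel, smul_eq_mul, nsmul_eq_mul,
          pow_succ, map_natCast]
    have e5 : VV u0 u1 lam (MvPolynomial.C b0) = 0 := Derivation.map_algebraMap _ b0
    rw [hf, Derivation.leibniz, Derivation.leibniz, Derivation.leibniz, e3, e4, e5, hV]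
    simp only [smul_eq_mul, mul_zero, add_zero, map_add, map_mul]
    ring
  refine ⟨![(MvPolynomial.C u1 * MvPolynomial.X 2 + MvPolynomial.C lam * (MvPolynomial.X 0 -
    MvPolynomial.C u0 * MvPolynomial.X 1 - MvPolynomial.C u1 * MvPolynomial.X 2)) -
      MvPolynomial.C k * MvPolynomial.X 0, - (MvPolynomial.C k * MvPolynomial.X 1),
      MvPolynomial.X 2 - MvPolynomial.C k * MvPolynomial.X 2], ?_, ?_, ?_⟩
  · intro i
    fin_cases i
    · exact (VV_homog u0 u1 lam).sub ((hX 0).C_mul k)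
    · exact ((hX 1).C_mul k).neg
    · exact (hX 2).sub ((hX 2).C_mul k)
  · rw [← hf, Fin.sum_univ_three]
    have hE := hfh.sum_X_mul_pderiv
    rw [Fin.sum_univ_three, nsmul_eq_mul] at hE
    rw [VV_apply] at hVf
    have hkC : MvPolynomial.C k * (((p1 + p2 + D : ℕ) : MvPolynomial (Fin 3) ℂ)) =
        MvPolynomial.C (p2 + lam * D) := by
      rw [← hk, MvPolynomial.C_mul, map_natCast]
    simp only [Matrix.cons_val_zero, Matrix.cons_val_one, Matrix.cons_val]
    linear_combination hVf - MvPolynomial.C k * hE - f * hkC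
  · rw [Fin.sum_univ_three]
    simp only [Matrix.cons_val_zero, Matrix.cons_val_one, Matrix.cons_val]
    have h1 : MvPolynomial.pderiv 0 ((MvPolynomial.C u1 * MvPolynomial.X 2 + MvPolynomial.C lam *
        (MvPolynomial.X 0 - MvPolynomial.C u0 * MvPolynomial.X 1 - MvPolynomial.C u1 *
        MvPolynomial.X 2)) - MvPolynomial.C k * MvPolynomial.X 0 : MvPolynomial (Fin 3) ℂ) =
        MvPolynomial.C lam - MvPolynomial.C k := by
      simp [MvPolynomial.pderiv_X, Derivation.leibniz]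
    have h2 : MvPolynomial.pderiv 1 (- (MvPolynomial.C k * MvPolynomial.X 1) :
        MvPolynomial (Fin 3) ℂ) = - MvPolynomial.C k := by
      simp [MvPolynomial.pderiv_X, Derivation.leibniz]
    have h3 : MvPolynomial.pderiv 2 (MvPolynomial.X 2 - MvPolynomial.C k * MvPolynomial.X 2 :
        MvPolynomial (Fin 3) ℂ) = 1 - MvPolynomial.C k := by
      simp [MvPolynomial.pderiv_X, Derivation.leibniz]
    rw [h1, h2, h3]
    have h4 : (MvPolynomial.C lam - MvPolynomial.C k + - MvPolynomial.C k +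
        (1 - MvPolynomial.C k) : MvPolynomial (Fin 3) ℂ) =
        MvPolynomial.C (1 + s * p2 + lam * (1 + s * D)) := by
      have h5 : 1 + s * p2 + lam * (1 + s * D) = lam - k + -k + (1 - k) := by
        have h6 : ((p1 + p2 + D : ℕ) : ℂ) ≠ 0 := by
          have h7 : p1 + p2 + D ≠ 0 := by omega
          exact_mod_cast h7
        apply mul_right_cancel₀ h6
        linear_combination (p2 + lam * D) * hs + 3 * hk
      rw [h5]
      simp only [MvPolynomial.C_add, MvPolynomial.C_sub, MvPolynomial.C_neg, MvPolynomial.C_1]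
    rw [h4]
    intro h5
    exact hne ((MvPolynomial.C_eq_zero).1 h5)

end LM

end MPb07157
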